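import Mathlib

set_option autoImplicit false

namespace Pool.Agent.Work.MP_f2c9f5_co

open Finset

/-- `1 - x ≥ exp (-2x)` on `[0,1/2]`. -/
lemma exp_le_one_sub {x : ℝ} (h0 : 0 ≤ x) (h1 : x ≤ 1 / 2) : Real.exp (-(2 * x)) ≤ 1 - x := by
  have hpos : 0 < 1 - x := by linarith
  have h2 : x / (1 - x) ≤ 2 * x := by
    rw [div_le_iff₀ hpos]
    nlinarith
  have h3 : 1 / (1 - x) ≤ Real.exp (x / (1 - x)) := by
    have h4 := Real.add_one_le_exp (x / (1 - x))
    have h5 : x / (1 - x) + 1 = 1 / (1 - x) := by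
      field_simp
      ring
    linarith
  have h6 : 1 / (1 - x) ≤ Real.exp (2 * x) := h3.trans (Real.exp_le_exp.2 h2)
  rw [Real.exp_neg, inv_le_comm₀ (Real.exp_pos _) hpos, ← one_div]
  exact h6

lemma prod_lower {ι : Type} [Fintype ι] (f : ι → ℕ) (ρ k : ℕ) (hρ : 0 < ρ)
    (hf : ∀ a, 2 * f a ≤ ρ) (hsum : ∑ a, f a ≤ k * ρ) :
    (ρ : ℝ) ^ Fintype.card ι / 8 ^ k ≤ ∏ a, ((ρ : ℝ) - f a) := by
  have hρ' : (0 : ℝ) < ρ := by exact_mod_cast hρ
  have h1 : ∀ a, (ρ : ℝ) * Real.exp (-(2 * (f a / ρ))) ≤ (ρ : ℝ) - f a := by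
    intro a
    have h2 : (f a : ℝ) / ρ ≤ 1 / 2 := by
      rw [div_le_div_iff₀ hρ' (by norm_num)]
      have := hf a
      have h3 : (2 * f a : ℝ) ≤ ρ := by exact_mod_cast this
      linarith
    have h4 := exp_le_one_sub (by positivity) h2
    calc (ρ : ℝ) * Real.exp (-(2 * (f a / ρ))) ≤ ρ * (1 - f a / ρ) := by gcongr
      _ = (ρ : ℝ) - f a := by field_simp
  have h5 : ∏ a, ((ρ : ℝ) * Real.exp (-(2 * (f a / ρ)))) ≤ ∏ a, ((ρ : ℝ) - f a) :=
    prod_le_prod (fun a _ => by positivity) (fun a _ => h1 a)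
  refine le_trans ?_ h5
  rw [prod_mul_distrib, prod_const, card_univ, ← Real.exp_sum, div_eq_mul_inv]
  gcongr
  have h6 : ∑ a, -(2 * ((f a : ℝ) / ρ)) ≥ -(2 * k) := by
    rw [sum_neg_distrib, ← mul_sum, ← sum_div]
    have h7 : (∑ a, (f a : ℝ)) / ρ ≤ k := by
      rw [div_le_iff₀ hρ']
      exact_mod_cast hsum
    linarith
  have h8 : ((8 : ℝ) ^ k)⁻¹ ≤ Real.exp (-(2 * k)) := by
    rw [Real.exp_neg]
    gcongr
    have h9 : Real.exp (2 * (k : ℝ)) = (Real.exp 1 ^ 2) ^ k := by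
      rw [← pow_mul, ← Real.exp_nat_mul]
      push_cast
      ring_nf
    rw [h9]
    have h10 : Real.exp 1 < 2.7182818286 := Real.exp_one_lt_d9
    have h11 : Real.exp 1 ^ 2 ≤ 8 := by nlinarith [Real.exp_pos 1]
    gcongr
  exact h8.trans (Real.exp_le_exp.2 h6)

/-- Bernoulli bound for the number of non-injective maps. -/
lemma card_emb_lower (r0 ρ k : ℕ) (hρ : 2 * 8 ^ k * r0 ^ 2 ≤ ρ) (hρ0 : 0 < ρ) :
    (ρ : ℝ) ^ r0 - (ρ : ℝ) ^ r0 / (2 * 8 ^ k) ≤ (Fintype.card (Fin r0 ↪ Fin ρ) : ℝ) := by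
  have hρ' : (0 : ℝ) < ρ := by exact_mod_cast hρ0
  rw [Fintype.card_embedding_eq, Fintype.card_fin, Fintype.card_fin]
  have h1 : (ρ + 1 - r0) ^ r0 ≤ ρ.descFactorial r0 := Nat.pow_sub_le_descFactorial ρ r0
  have hr : r0 ≤ ρ := by
    calc r0 ≤ r0 ^ 2 := by nlinarith [Nat.zero_le r0, Nat.le_self_pow (two_ne_zero) r0]
      _ ≤ 2 * 8 ^ k * r0 ^ 2 := Nat.le_mul_of_pos_left _ (by positivity)
      _ ≤ ρ := hρ
  have h2 : ((ρ : ℝ) - r0) ^ r0 ≤ (ρ.descFactorial r0 : ℝ) := by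
    have h3 : ((ρ : ℝ) - r0) ≤ ((ρ + 1 - r0 : ℕ) : ℝ) := by
      rw [Nat.cast_sub (by omega)]
      push_cast
      linarith
    have h4 : (0 : ℝ) ≤ (ρ : ℝ) - r0 := by
      have : (r0 : ℝ) ≤ ρ := by exact_mod_cast hr
      linarith
    calc ((ρ : ℝ) - r0) ^ r0 ≤ ((ρ + 1 - r0 : ℕ) : ℝ) ^ r0 := by gcongr
      _ ≤ (ρ.descFactorial r0 : ℝ) := by exact_mod_cast h1
  refine le_trans ?_ h2
  have h5 : (1 : ℝ) + (r0 : ℝ) * (-(r0 / ρ)) ≤ (1 + (-(r0 / ρ))) ^ r0 := by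
    apply one_add_mul_le_pow
    have : (r0 : ℝ) / ρ ≤ 1 := by
      rw [div_le_one hρ']
      exact_mod_cast hr
    linarith
  have h6 : ((ρ : ℝ) - r0) ^ r0 = (ρ : ℝ) ^ r0 * (1 + (-(r0 / ρ))) ^ r0 := by
    rw [← mul_pow]
    congr 1
    field_simp
    ring
  rw [h6]
  have h7 : (r0 : ℝ) * (r0 / ρ) ≤ 1 / (2 * 8 ^ k) := by
    rw [← mul_div_assoc, div_le_div_iff₀ hρ' (by positivity)]
    have : ((2 * 8 ^ k * r0 ^ 2 : ℕ) : ℝ) ≤ ρ := by exact_mod_cast hρ
    push_cast at this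
    nlinarith
  have h8 : (ρ : ℝ) ^ r0 - (ρ : ℝ) ^ r0 / (2 * 8 ^ k) = (ρ : ℝ) ^ r0 * (1 - 1 / (2 * 8 ^ k)) := by
    ring
  rw [h8]
  gcongr
  linarith

/-- Most colour cells cannot be hit: outside the heavy rows `H`, a constant fraction of the
injections avoids `F`. -/
lemma count_inj (r0 ρ k : ℕ) (F : Finset (Fin r0 × Fin ρ)) (H : Finset (Fin r0))
    (hH : ∀ a, a ∉ H → 2 * (univ.filter (fun c : Fin ρ => (a, c) ∈ F)).card ≤ ρ)
    (hF : F.card ≤ k * ρ) (hρ : 2 * 8 ^ k * r0 ^ 2 ≤ ρ) (hρ0 : 0 < ρ) :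
    Fintype.card (Fin r0 ↪ Fin ρ) ≤ 2 * 8 ^ k *
      (univ.filter (fun v : Fin r0 ↪ Fin ρ => ∀ a, a ∉ H → (a, v a) ∉ F)).card := by
  classical
  -- the family of allowed values
  let S : Fin r0 → Finset (Fin ρ) := fun a => if a ∈ H then univ else univ.filter (fun c => (a, c) ∉ F)
  let f : Fin r0 → ℕ := fun a => if a ∈ H then 0 else (univ.filter (fun c : Fin ρ => (a, c) ∈ F)).card
  have hSf : ∀ a, ((S a).card : ℝ) = (ρ : ℝ) - f a := by
    intro a
    by_cases ha : a ∈ H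
    · simp [S, f, ha]
    · simp only [S, f, ha, if_false]
      have h1 := card_filter_add_card_filter_not (s := (univ : Finset (Fin ρ)))
        (fun c : Fin ρ => (a, c) ∈ F)
      rw [card_univ, Fintype.card_fin] at h1
      rw [eq_sub_iff_add_eq]
      have h2 : (univ.filter (fun c : Fin ρ => (a, c) ∉ F)).card +
        (univ.filter (fun c : Fin ρ => (a, c) ∈ F)).card = ρ := by omega
      exact_mod_cast h2
  have hsum : ∑ a, f a ≤ k * ρ := by
    refine le_trans ?_ hF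
    have h1 : F.card = ∑ a : Fin r0, (univ.filter (fun c : Fin ρ => (a, c) ∈ F)).card := by
      rw [card_eq_sum_card_fiberwise (f := Prod.fst) (t := univ) (fun x _ => by simp)]
      refine sum_congr rfl fun a _ => ?_
      refine card_bij' (fun x _ => x.2) (fun c _ => (a, c)) ?_ ?_ ?_ ?_
      · rintro ⟨b, c⟩ h
        simp at h ⊢
        rw [← h.2]; exact h.1
      · intro c h
        simpa using h
      · rintro ⟨b, c⟩ h
        simp at h ⊢
        exact h.2.symm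
      · intro c _
        rfl
    rw [h1]
    refine sum_le_sum fun a _ => ?_
    simp only [f]
    split_ifs
    · exact Nat.zero_le _
    · exact le_rfl
  have hf2 : ∀ a, 2 * f a ≤ ρ := by
    intro a
    simp only [f]
    split_ifs with h
    · omega
    · exact hH a h
  have hprod := prod_lower f ρ k hρ0 hf2 hsum
  rw [Fintype.card_fin] at hprod
  -- the set of all allowed functions
  let A : Finset (Fin r0 → Fin ρ) := Fintype.piFinset S
  have hA : (A.card : ℝ) = ∏ a, ((ρ : ℝ) - f a) := by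
    simp only [A, Fintype.card_piFinset]
    push_cast
    exact prod_congr rfl fun a _ => hSf a
  -- injective functions
  let B : Finset (Fin r0 → Fin ρ) := univ.map ⟨fun v : Fin r0 ↪ Fin ρ => (v : Fin r0 → Fin ρ),
    DFunLike.coe_injective⟩
  have hB : B.card = Fintype.card (Fin r0 ↪ Fin ρ) := by
    simp only [B, card_map, card_univ]
  have hAB : (A ∩ B).card ≤
      (univ.filter (fun v : Fin r0 ↪ Fin ρ => ∀ a, a ∉ H → (a, v a) ∉ F)).card := by
    have hsub : A ∩ B ⊆ (univ.filter (fun v : Fin r0 ↪ Fin ρ => ∀ a, a ∉ H → (a, v a) ∉ F)).map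
        ⟨fun v : Fin r0 ↪ Fin ρ => (v : Fin r0 → Fin ρ), DFunLike.coe_injective⟩ := by
      intro g hg
      simp only [A, B, mem_inter, Fintype.mem_piFinset, mem_map, mem_univ, true_and,
        Function.Embedding.coeFn_mk, mem_filter] at hg ⊢
      obtain ⟨h1, v, rfl⟩ := hg
      refine ⟨v, ?_, rfl⟩
      intro a ha
      have h2 := h1 a
      simpa [S, ha] using h2
    calc (A ∩ B).card ≤ _ := card_le_card hsub
      _ = _ := card_map _
  have hunion : A.card + B.card ≤ (A ∩ B).card + ρ ^ r0 := by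
    have h1 := card_union_add_card_inter A B
    have h2 : (A ∪ B).card ≤ ρ ^ r0 := by
      calc (A ∪ B).card ≤ (univ : Finset (Fin r0 → Fin ρ)).card := card_le_univ _
        _ = ρ ^ r0 := by simp
    omega
  have hB2 : (B.card : ℝ) ≤ (ρ : ℝ) ^ r0 := by
    have : B.card ≤ (univ : Finset (Fin r0 → Fin ρ)).card := card_le_univ _
    have h2 : (univ : Finset (Fin r0 → Fin ρ)).card = ρ ^ r0 := by simp
    rw [h2] at this
    exact_mod_cast this
  have hemb := card_emb_lower r0 ρ k hρ hρ0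
  have h3 : (A.card : ℝ) + B.card ≤ (A ∩ B).card + (ρ : ℝ) ^ r0 := by exact_mod_cast hunion
  have h4 : (ρ : ℝ) ^ r0 ≤ 2 * 8 ^ k * (A ∩ B).card := by
    have h5 : (ρ : ℝ) ^ r0 / (2 * 8 ^ k) ≤ (A ∩ B).card := by
      rw [hA, hB] at h3
      have h6 : (ρ : ℝ) ^ r0 / 8 ^ k = 2 * ((ρ : ℝ) ^ r0 / (2 * 8 ^ k)) := by
        field_simp
      linarith
    rw [div_le_iff₀ (by positivity)] at h5
    linarith
  have h5 : (B.card : ℝ) ≤ 2 * 8 ^ k * (A ∩ B).card := hB2.trans h4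
  have h6 : B.card ≤ 2 * 8 ^ k * (A ∩ B).card := by exact_mod_cast h5
  rw [← hB]
  exact h6.trans (Nat.mul_le_mul_left _ hAB)

/-- There are few heavy rows. -/
lemma card_heavy (r0 ρ : ℕ) (F : Finset (Fin r0 × Fin ρ)) :
    (univ.filter (fun a : Fin r0 =>
      ρ < 2 * (univ.filter (fun c : Fin ρ => (a, c) ∈ F)).card)).card * ρ ≤ 2 * F.card := by
  classical
  have h1 : F.card = ∑ a : Fin r0, (univ.filter (fun c : Fin ρ => (a, c) ∈ F)).card := by
    rw [card_eq_sum_card_fiberwise (f := Prod.fst) (t := univ) (fun x _ => by simp)]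
    refine sum_congr rfl fun a _ => ?_
    refine card_bij' (fun x _ => x.2) (fun c _ => (a, c)) ?_ ?_ ?_ ?_
    · rintro ⟨b, c⟩ h
      simp at h ⊢
      rw [← h.2]; exact h.1
    · intro c h
      simpa using h
    · rintro ⟨b, c⟩ h
      simp at h ⊢
      exact h.2.symm
    · intro c _
      rfl
  rw [h1, mul_sum]
  set Hv := (univ.filter (fun a : Fin r0 =>
      ρ < 2 * (univ.filter (fun c : Fin ρ => (a, c) ∈ F)).card)) with hHv
  calc Hv.card * ρ = ∑ a ∈ Hv, ρ := by rw [sum_const, smul_eq_mul]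
    _ ≤ ∑ a ∈ Hv, 2 * (univ.filter (fun c : Fin ρ => (a, c) ∈ F)).card := by
        refine sum_le_sum fun a ha => ?_
        rw [hHv, mem_filter] at ha
        exact ha.2.le
    _ ≤ ∑ a, 2 * (univ.filter (fun c : Fin ρ => (a, c) ∈ F)).card :=
        sum_le_sum_of_subset (subset_univ _)

end Pool.Agent.Work.MP_f2c9f5_co
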