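import Mathlib
import Pool.Agent.Work.MP_f2c9f5_co.Count

set_option autoImplicit false

namespace Pool.Agent.Work.MP_f2c9f5_co

open Finset

/-- A weighted coloured pattern: parts `P`, labels `Lab` of the monochromatic components,
the label `κ p q` of the edges between the parts `p` and `q` (or inside `p` if `p = q`). -/
structure Pat where
  P : Type
  Lab : Type
  Col : Type
  fP : Fintype P
  dP : DecidableEq P
  fC : Fintype Col
  dL : DecidableEq Lab
  κ : P → P → Lab
  col : Lab → Col
  w : P → ℕ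
  symm : ∀ p q, κ p q = κ q p
  conn : ∀ p q s, col (κ p q) = col (κ q s) → κ p q = κ q s
  wpos : 0 < ∑ p, w p

attribute [instance] Pat.fP Pat.dP Pat.fC Pat.dL

/-- weight of a set of parts. -/
def Pat.wt (X : Pat) (S : Finset X.P) : ℕ := ∑ p ∈ S, X.w p

/-- neighbourhood of a set of parts in a family of components. -/
def Pat.nb (X : Pat) (F : Finset X.Lab) (I : Finset X.P) : Finset X.P :=
  univ.filter (fun q => ∃ p ∈ I, X.κ p q ∈ F)

def Pat.Good (X : Pat) (C D M : ℕ) : Prop :=
  ∀ F : Finset X.Lab, F.card < C → ∃ I : Finset X.P,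
    X.wt univ + M * D * X.wt (X.nb F I) ≤ M * X.wt I

/-- The base pattern: `p q ↦ p + q` on `ZMod m`. -/
def basePat (m : ℕ) [NeZero m] : Pat where
  P := ZMod m
  Lab := Sym2 (ZMod m)
  Col := ZMod m
  fP := inferInstance
  dP := inferInstance
  fC := inferInstance
  dL := inferInstance
  κ := fun p q => s(p, q)
  col := Sym2.lift ⟨fun p q => p + q, fun p q => add_comm p q⟩
  w := fun _ => 1
  symm := fun p q => Sym2.eq_swap
  conn := by
    intro p q s h
    simp only [Sym2.lift_mk] at h
    have h1 : p = s := by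
      have : p + q = s + q := by rw [h, add_comm]
      exact add_right_cancel this
    rw [h1]
    exact Sym2.eq_swap
  wpos := by
    rw [sum_const, smul_eq_mul, mul_one]
    exact Fintype.card_pos

lemma basePat_card (m : ℕ) [NeZero m] : Fintype.card (basePat m).Col = m := ZMod.card m

lemma basePat_good (t D : ℕ) [NeZero (4 * t)] : (basePat (4 * t)).Good t D 2 := by
  intro F hF
  classical
  let T : Finset (ZMod (4 * t)) := F.biUnion (fun l => l.toFinset)
  have hT : T.card ≤ 2 * F.card := by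
    calc T.card ≤ ∑ l ∈ F, l.toFinset.card := card_biUnion_le
      _ ≤ ∑ l ∈ F, 2 := by
          refine sum_le_sum fun l _ => ?_
          induction l using Sym2.ind with
          | _ x y =>
            by_cases hxy : x = y
            · subst hxy
              have h0 : (s(x, x) : Sym2 (ZMod (4 * t))).toFinset = {x} := by
                ext z; simp
              rw [h0]; simp
            · have h0 : (s(x, y) : Sym2 (ZMod (4 * t))).toFinset = {x, y} := by
                ext z; simp
              rw [h0]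
              exact card_le_two
      _ = 2 * F.card := by rw [sum_const, smul_eq_mul, mul_comm]
  have key : (basePat (4 * t)).nb F Tᶜ = ∅ := by
    unfold Pat.nb
    rw [filter_eq_empty_iff]
    rintro q _ ⟨p, hp, hpq⟩
    have h1 : p ∉ T := by
      intro h
      exact (mem_compl.1 hp) h
    apply h1
    refine mem_biUnion.2 ⟨_, hpq, ?_⟩
    exact (Sym2.mem_toFinset (α := ZMod (4 * t))).2 (Sym2.mem_mk_left (α := ZMod (4 * t)) p q)
  refine ⟨Tᶜ, ?_⟩
  rw [key]
  have h1 : (basePat (4 * t)).wt ∅ = 0 := by simp [Pat.wt]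
  have h2 : (basePat (4 * t)).wt univ = 4 * t := by
    unfold Pat.wt
    change ∑ p : ZMod (4 * t), 1 = 4 * t
    rw [sum_const, smul_eq_mul, mul_one, card_univ, ZMod.card]
  have h3 : (basePat (4 * t)).wt Tᶜ = (Tᶜ).card := by
    unfold Pat.wt
    change ∑ p ∈ Tᶜ, 1 = _
    rw [sum_const, smul_eq_mul, mul_one]
  rw [h1, h2, h3, card_compl, ZMod.card]
  omega

section Step

variable (X : Pat) (r0 ρ A0 : ℕ)

/-- The recursive step. -/
noncomputable def stepPat (hr : 0 < r0) (hV : Nonempty (Fin r0 ↪ Fin ρ)) : Pat where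
  P := (X.P × Fin r0) ⊕ (X.P × (Fin r0 ↪ Fin ρ))
  Lab := (X.Lab ⊕ X.Lab) ⊕ (Fin r0 × Fin ρ)
  Col := X.Col ⊕ Fin ρ
  fP := inferInstance
  dP := inferInstance
  fC := inferInstance
  dL := inferInstance
  κ := fun p q => match p, q with
    | Sum.inl (p, _), Sum.inl (q, _) => Sum.inl (Sum.inl (X.κ p q))
    | Sum.inr (p, _), Sum.inr (q, _) => Sum.inl (Sum.inr (X.κ p q))
    | Sum.inl (_, a), Sum.inr (_, v) => Sum.inr (a, v a)
    | Sum.inr (_, v), Sum.inl (_, a) => Sum.inr (a, v a)
  col := fun l => match l with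
    | Sum.inl (Sum.inl l) => Sum.inl (X.col l)
    | Sum.inl (Sum.inr l) => Sum.inl (X.col l)
    | Sum.inr (_, c) => Sum.inr c
  w := fun p => match p with
    | Sum.inl (p, _) => X.w p * (Fintype.card (Fin r0 ↪ Fin ρ) * A0)
    | Sum.inr (p, _) => X.w p * r0
  symm := by
    rintro (⟨p, a⟩ | ⟨p, v⟩) (⟨q, b⟩ | ⟨q, u⟩)
    · simp [X.symm p q]
    · rfl
    · rfl
    · simp [X.symm p q]
  conn := by
    rintro (⟨p, a⟩ | ⟨p, v⟩) (⟨q, b⟩ | ⟨q, u⟩) (⟨s, c⟩ | ⟨s, z⟩) h
    · simp only [Sum.inl.injEq] at h ⊢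
      exact X.conn _ _ _ h
    · simp at h
    · simp only [Sum.inr.injEq] at h ⊢
      have h1 : a = c := u.injective h
      rw [h1]
    · simp at h
    · simp at h
    · simp only [Sum.inr.injEq] at h ⊢
      rw [h]
    · simp at h
    · simp only [Sum.inl.injEq, Sum.inr.injEq] at h ⊢
      exact X.conn _ _ _ h
  wpos := by
    rw [Fintype.sum_sum_type, Fintype.sum_prod_type, Fintype.sum_prod_type]
    change 0 < (∑ x : X.P, ∑ _y : Fin r0, X.w x * (Fintype.card (Fin r0 ↪ Fin ρ) * A0)) +
      ∑ x : X.P, ∑ _y : Fin r0 ↪ Fin ρ, X.w x * r0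
    have h1 : 0 < ∑ p, X.w p := X.wpos
    have h2 : 0 < ∑ x : X.P, ∑ _y : Fin r0 ↪ Fin ρ, X.w x * r0 := by
      simp only [sum_const, card_univ, smul_eq_mul]
      rw [← mul_sum, ← sum_mul]
      have : 0 < Fintype.card (Fin r0 ↪ Fin ρ) := Fintype.card_pos
      positivity
    omega

end Step

end Pool.Agent.Work.MP_f2c9f5_co
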