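import Mathlib
import Pool.Agent.Work.MP_f2c9f5_co.Pattern

set_option autoImplicit false

namespace Pool.Agent.Work.MP_f2c9f5_co

open Finset

lemma arith_a (W wN wI cV r0 A0 M1 D D1 Q : ℕ) (h : W + M1 * D1 * wN ≤ M1 * wI)
    (hD : D ≤ D1) (hA : A0 = 2 * M1 * D + 1) (hQ : 2 ≤ Q) :
    (W * r0 * (cV * A0) + W * cV * r0) + (M1 * Q) * D * (wN * r0 * (cV * A0) + W * cV * r0) ≤
      (M1 * Q) * (wI * r0 * (cV * A0)) := by
  obtain ⟨q, rfl⟩ : ∃ q, Q = q + 2 := ⟨Q - 2, by omega⟩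
  have h1 : (M1 * (q + 2)) * D * (wN * A0) ≤ (q + 2) * A0 * (M1 * D1 * wN) := by
    calc (M1 * (q + 2)) * D * (wN * A0) = (q + 2) * A0 * (M1 * D * wN) := by ring
      _ ≤ (q + 2) * A0 * (M1 * D1 * wN) := by gcongr
  have h2 : (q + 2) * A0 * (W + M1 * D1 * wN) ≤ (q + 2) * A0 * (M1 * wI) := by gcongr
  have h3 : W * A0 + W + (M1 * (q + 2)) * D * W ≤ (q + 2) * A0 * W := by
    rw [hA]
    have : (q + 2) * (2 * M1 * D + 1) * W =
        W * (2 * M1 * D + 1) + W + (M1 * (q + 2)) * D * W + q * W + q * M1 * D * W := by ring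
    rw [this]
    have h4 : 0 ≤ q * W + q * M1 * D * W := Nat.zero_le _
    omega
  have key : W * A0 + W + (M1 * (q + 2)) * D * (wN * A0 + W) ≤ (M1 * (q + 2)) * wI * A0 := by
    calc W * A0 + W + (M1 * (q + 2)) * D * (wN * A0 + W)
        = (W * A0 + W + (M1 * (q + 2)) * D * W) + (M1 * (q + 2)) * D * (wN * A0) := by ring
      _ ≤ (q + 2) * A0 * W + (q + 2) * A0 * (M1 * D1 * wN) := by gcongr
      _ = (q + 2) * A0 * (W + M1 * D1 * wN) := by ring
      _ ≤ (q + 2) * A0 * (M1 * wI) := h2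
      _ = (M1 * (q + 2)) * wI * A0 := by ring
  calc (W * r0 * (cV * A0) + W * cV * r0) +
        (M1 * (q + 2)) * D * (wN * r0 * (cV * A0) + W * cV * r0)
      = (r0 * cV) * (W * A0 + W + (M1 * (q + 2)) * D * (wN * A0 + W)) := by ring
    _ ≤ (r0 * cV) * ((M1 * (q + 2)) * wI * A0) := by gcongr
    _ = (M1 * (q + 2)) * (wI * r0 * (cV * A0)) := by ring

lemma arith_b (W wN wI cV cU r0 A0 M1 D Q E hH : ℕ) (hE : 0 < E)
    (h : W + M1 * (E * D) * wN ≤ M1 * wI) (hU : cV ≤ E * cU)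
    (hQ : Q = E * (A0 + 2)) (hr : (M1 * Q) * D * hH * A0 ≤ r0) :
    (W * r0 * (cV * A0) + W * cV * r0) + (M1 * Q) * D * (W * hH * (cV * A0) + wN * cV * r0) ≤
      (M1 * Q) * (wI * cU * r0) := by
  apply Nat.le_of_mul_le_mul_left _ hE
  have h1 : Q * (W + M1 * (E * D) * wN) ≤ Q * (M1 * wI) := by gcongr
  have h2 : E * W * ((M1 * Q) * D * hH * A0) ≤ E * W * r0 := by gcongr
  calc E * ((W * r0 * (cV * A0) + W * cV * r0) +
        (M1 * Q) * D * (W * hH * (cV * A0) + wN * cV * r0))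
      = cV * (E * W * r0 * (A0 + 1) + E * W * ((M1 * Q) * D * hH * A0) +
          Q * (M1 * (E * D) * wN) * r0) := by ring
    _ ≤ cV * (E * W * r0 * (A0 + 1) + E * W * r0 + Q * (M1 * (E * D) * wN) * r0) := by gcongr
    _ = cV * (r0 * (Q * (W + M1 * (E * D) * wN))) := by rw [hQ]; ring
    _ ≤ cV * (r0 * (Q * (M1 * wI))) := by gcongr
    _ ≤ (E * cU) * (r0 * (Q * (M1 * wI))) := by gcongr
    _ = E * ((M1 * Q) * (wI * cU * r0)) := by ring

variable (X : Pat) (r0 ρ A0 : ℕ) (hr : 0 < r0) (hV : Nonempty (Fin r0 ↪ Fin ρ))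

lemma step_wt (S1 : Finset (X.P × Fin r0)) (S2 : Finset (X.P × (Fin r0 ↪ Fin ρ))) :
    (stepPat X r0 ρ A0 hr hV).wt (S1.disjSum S2) =
      ∑ x ∈ S1, X.w x.1 * (Fintype.card (Fin r0 ↪ Fin ρ) * A0) + ∑ x ∈ S2, X.w x.1 * r0 := by
  unfold Pat.wt
  exact sum_disjSum _ _ _

lemma sum_prod_const (S : Finset X.P) {T : Type} (U : Finset T) (c : ℕ) :
    ∑ x ∈ S ×ˢ U, X.w x.1 * c = X.wt S * U.card * c := by
  rw [sum_product]
  simp only [sum_const, smul_eq_mul]
  rw [← mul_sum, ← sum_mul]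
  unfold Pat.wt
  ring

lemma step_wt_prod (S1 : Finset X.P) (T1 : Finset (Fin r0)) (S2 : Finset X.P)
    (T2 : Finset (Fin r0 ↪ Fin ρ)) :
    (stepPat X r0 ρ A0 hr hV).wt ((S1 ×ˢ T1).disjSum (S2 ×ˢ T2)) =
      X.wt S1 * T1.card * (Fintype.card (Fin r0 ↪ Fin ρ) * A0) + X.wt S2 * T2.card * r0 := by
  rw [step_wt, sum_prod_const, sum_prod_const]

lemma step_wt_univ : (stepPat X r0 ρ A0 hr hV).wt univ =
    X.wt univ * r0 * (Fintype.card (Fin r0 ↪ Fin ρ) * A0) +
      X.wt univ * Fintype.card (Fin r0 ↪ Fin ρ) * r0 := by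
  have h : (univ : Finset (stepPat X r0 ρ A0 hr hV).P) =
      ((univ : Finset X.P) ×ˢ (univ : Finset (Fin r0))).disjSum
        ((univ : Finset X.P) ×ˢ (univ : Finset (Fin r0 ↪ Fin ρ))) := by
    rw [univ_product_univ, univ_product_univ, univ_disjSum_univ]
    rfl
  rw [h, step_wt_prod, card_univ, card_univ, Fintype.card_fin]

lemma wt_mono (Y : Pat) {S T : Finset Y.P} (h : S ⊆ T) : Y.wt S ≤ Y.wt T :=
  sum_le_sum_of_subset h

theorem step_good (k M1 D E Q C : ℕ) (hE : E = 2 * 8 ^ k) (hA : A0 = 2 * M1 * D + 1)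
    (hQ : Q = E * (A0 + 2)) (hr0 : (M1 * Q) * D * (2 * k) * A0 ≤ r0)
    (hρ : 2 * 8 ^ k * r0 ^ 2 ≤ ρ) (hC : C ≤ k * ρ) (hρ0 : 0 < ρ)
    (hX : X.Good C (E * D) M1) :
    (stepPat X r0 ρ A0 hr hV).Good (2 * C) D (M1 * Q) := by
  classical
  intro F hF
  have hEpos : 0 < E := by rw [hE]; positivity
  have hQ2 : 2 ≤ Q := by
    rw [hQ]
    calc 2 ≤ 1 * (A0 + 2) := by omega
      _ ≤ E * (A0 + 2) := Nat.mul_le_mul_right _ hEpos
  -- split the labels
  let F' : Finset ((X.Lab ⊕ X.Lab) ⊕ (Fin r0 × Fin ρ)) := F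
  have hcard : F'.toLeft.toLeft.card + F'.toLeft.toRight.card + F'.toRight.card < 2 * C := by
    rw [card_toLeft_add_card_toRight, card_toLeft_add_card_toRight]
    exact hF
  set cV := Fintype.card (Fin r0 ↪ Fin ρ) with hcV
  by_cases hS : F'.toLeft.toLeft.card < C
  · -- few labels in the first half
    obtain ⟨I, hI⟩ := hX _ hS
    refine ⟨((I ×ˢ (univ : Finset (Fin r0))).disjSum
      ((∅ : Finset X.P) ×ˢ (∅ : Finset (Fin r0 ↪ Fin ρ)))), ?_⟩
    have hnb : (stepPat X r0 ρ A0 hr hV).nb F ((I ×ˢ (univ : Finset (Fin r0))).disjSum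
        ((∅ : Finset X.P) ×ˢ (∅ : Finset (Fin r0 ↪ Fin ρ)))) ⊆
        ((X.nb F'.toLeft.toLeft I ×ˢ (univ : Finset (Fin r0))).disjSum
          ((univ : Finset X.P) ×ˢ (univ : Finset (Fin r0 ↪ Fin ρ)))) := by
      intro q hq
      unfold Pat.nb at hq
      rw [mem_filter] at hq
      obtain ⟨-, p, hp, hpq⟩ := hq
      rcases q with ⟨q, b⟩ | ⟨q, u⟩
      · rcases p with ⟨p, a⟩ | ⟨p, v⟩
        · refine inl_mem_disjSum.2 ?_
          rw [mem_product]
          refine ⟨?_, mem_univ _⟩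
          unfold Pat.nb
          rw [mem_filter]
          refine ⟨mem_univ _, p, ?_, ?_⟩
          · exact (mem_product.1 (inl_mem_disjSum.1 hp)).1
          · rw [mem_toLeft, mem_toLeft]
            exact hpq
        · exact absurd (inr_mem_disjSum.1 hp) (by simp)
      · refine inr_mem_disjSum.2 ?_
        simp
    have h1 := wt_mono _ hnb
    rw [step_wt_prod, card_univ, card_univ, Fintype.card_fin] at h1
    rw [step_wt_univ, step_wt_prod, card_univ, Fintype.card_fin]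
    have h0 : X.wt ∅ = 0 := by simp [Pat.wt]
    rw [h0, zero_mul, zero_mul, add_zero]
    have h2 := arith_a (X.wt univ) (X.wt (X.nb F'.toLeft.toLeft I)) (X.wt I) cV r0 A0 M1 D
      (E * D) Q hI (Nat.le_mul_of_pos_left _ hEpos) hA hQ2
    refine le_trans ?_ h2
    gcongr
  · -- few labels in the second half and few cross labels
    have hQc : F'.toLeft.toRight.card < C := by omega
    have hXc : F'.toRight.card < C := by omega
    obtain ⟨I, hI⟩ := hX _ hQc
    let H : Finset (Fin r0) := univ.filter (fun a : Fin r0 =>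
      ρ < 2 * (univ.filter (fun c : Fin ρ => (a, c) ∈ F'.toRight)).card)
    let U : Finset (Fin r0 ↪ Fin ρ) := univ.filter (fun v : Fin r0 ↪ Fin ρ =>
      ∀ a, a ∉ H → (a, v a) ∉ F'.toRight)
    have hHcard : H.card ≤ 2 * k := by
      have h1 : H.card * ρ ≤ 2 * F'.toRight.card := card_heavy r0 ρ F'.toRight
      have h2 : H.card * ρ ≤ (2 * k) * ρ := by
        calc H.card * ρ ≤ 2 * F'.toRight.card := h1
          _ ≤ 2 * (k * ρ) := by gcongr; omega
          _ = (2 * k) * ρ := by ring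
      exact Nat.le_of_mul_le_mul_right h2 hρ0
    have hUcard : cV ≤ E * U.card := by
      rw [hE]
      refine count_inj r0 ρ k F'.toRight H ?_ (by omega) hρ hρ0
      intro a ha
      simp only [H, mem_filter, mem_univ, true_and, not_lt] at ha
      exact ha
    refine ⟨(((∅ : Finset X.P) ×ˢ (∅ : Finset (Fin r0))).disjSum (I ×ˢ U)), ?_⟩
    have hnb : (stepPat X r0 ρ A0 hr hV).nb F (((∅ : Finset X.P) ×ˢ
        (∅ : Finset (Fin r0))).disjSum (I ×ˢ U)) ⊆
        (((univ : Finset X.P) ×ˢ H).disjSum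
          (X.nb F'.toLeft.toRight I ×ˢ (univ : Finset (Fin r0 ↪ Fin ρ)))) := by
      intro q hq
      unfold Pat.nb at hq
      rw [mem_filter] at hq
      obtain ⟨-, p, hp, hpq⟩ := hq
      rcases p with ⟨p, a⟩ | ⟨p, v⟩
      · exact absurd (inl_mem_disjSum.1 hp) (by simp)
      · have hp' := mem_product.1 (inr_mem_disjSum.1 hp)
        rcases q with ⟨q, b⟩ | ⟨q, u⟩
        · refine inl_mem_disjSum.2 ?_
          rw [mem_product]
          refine ⟨mem_univ _, ?_⟩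
          by_contra hb
          have h3 : v ∈ U := hp'.2
          simp only [U, mem_filter, mem_univ, true_and] at h3
          apply h3 b hb
          rw [mem_toRight]
          exact hpq
        · refine inr_mem_disjSum.2 ?_
          rw [mem_product]
          refine ⟨?_, mem_univ _⟩
          unfold Pat.nb
          rw [mem_filter]
          refine ⟨mem_univ _, p, hp'.1, ?_⟩
          rw [mem_toRight, mem_toLeft]
          exact hpq
    have h1 := wt_mono _ hnb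
    rw [step_wt_prod, card_univ] at h1
    rw [step_wt_univ, step_wt_prod]
    have h0 : X.wt ∅ = 0 := by simp [Pat.wt]
    rw [h0, zero_mul, zero_mul, zero_add]
    have h2 := arith_b (X.wt univ) (X.wt (X.nb F'.toLeft.toRight I)) (X.wt I) cV U.card r0 A0 M1 D
      Q E H.card hEpos hI hUcard hQ (le_trans (by gcongr) hr0)
    refine le_trans ?_ h2
    gcongr

/-- Iterating the step: with `(4 + i) t` colours the cost is `2 ^ i t`. -/
theorem iterate (k : ℕ) : ∀ i : ℕ, ∀ D : ℕ, ∃ M t0 : ℕ, 0 < M ∧ ∀ t : ℕ, t0 ≤ t → 0 < t →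
    2 ^ i ≤ k → ∃ Y : Pat, Fintype.card Y.Col = (4 + i) * t ∧ Y.Good (2 ^ i * t) D M := by
  intro i
  induction i with
  | zero =>
    intro D
    refine ⟨2, 0, by norm_num, ?_⟩
    intro t _ ht _
    haveI : NeZero (4 * t) := ⟨by omega⟩
    refine ⟨basePat (4 * t), ?_, ?_⟩
    · rw [basePat_card]
    · rw [pow_zero, one_mul]
      exact basePat_good t D
  | succ i ih =>
    intro D
    let E := 2 * 8 ^ k
    obtain ⟨M1, t1, hM1, h⟩ := ih (E * D)
    let A0 := 2 * M1 * D + 1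
    let Q := E * (A0 + 2)
    let r0 := (M1 * Q) * D * (2 * k) * A0 + 1
    refine ⟨M1 * Q, max t1 (2 * 8 ^ k * r0 ^ 2), ?_, ?_⟩
    · positivity
    · intro t ht ht0 hk
      have hik : 2 ^ i ≤ k := le_trans (Nat.pow_le_pow_right (by norm_num) (Nat.le_succ i)) hk
      obtain ⟨Y, hYc, hYg⟩ := h t (le_trans (le_max_left _ _) ht) ht0 hik
      have hρ : 2 * 8 ^ k * r0 ^ 2 ≤ t := le_trans (le_max_right _ _) ht
      have hr0t : r0 ≤ t := by
        calc r0 ≤ r0 ^ 2 := Nat.le_self_pow (by norm_num) r0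
          _ ≤ 2 * 8 ^ k * r0 ^ 2 := Nat.le_mul_of_pos_left _ (by positivity)
          _ ≤ t := hρ
      have hV : Nonempty (Fin r0 ↪ Fin t) := ⟨Fin.castLEEmb hr0t⟩
      have hr : 0 < r0 := Nat.succ_pos _
      refine ⟨stepPat Y r0 t A0 hr hV, ?_, ?_⟩
      · have : Fintype.card (stepPat Y r0 t A0 hr hV).Col = Fintype.card (Y.Col ⊕ Fin t) := rfl
        rw [this, Fintype.card_sum, Fintype.card_fin, hYc]
        ring
      · have h2 := step_good Y r0 t A0 hr hV k M1 D E Q (2 ^ i * t) rfl rfl rfl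
          (Nat.le_succ _) hρ (Nat.mul_le_mul_right _ hik) ht0 hYg
        have h3 : 2 * (2 ^ i * t) = 2 ^ (i + 1) * t := by ring
        rw [h3] at h2
        exact h2

end Pool.Agent.Work.MP_f2c9f5_co
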