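import Mathlib

set_option autoImplicit false

namespace Pool.Agent.Work.MP_f2c9f5_co

open Finset SimpleGraph

/-- In an acyclic graph the neighbour closer to the root is unique. -/
lemma closer_unique {V : Type} {G : SimpleGraph V} (hG : G.IsAcyclic) {u v w w' : V}
    (huv : G.Reachable u v) (hw : G.Adj v w) (hw' : G.Adj v w')
    (hd : G.dist u v = G.dist u w + 1) (hd' : G.dist u v = G.dist u w' + 1) : w = w' := by
  classical
  obtain ⟨p, hp, hpl⟩ := huv.exists_path_of_dist
  have key : ∀ x, G.Adj v x → G.dist u v = G.dist u x + 1 → x = p.penultimate := by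
    intro x hx hdx
    have hux : G.Reachable u x := huv.trans hx.reachable
    obtain ⟨q, hq, hql⟩ := hux.exists_path_of_dist
    have hv : v ∉ q.support := by
      intro hv
      have h1 : G.dist u v ≤ (q.takeUntil v hv).length := dist_le _
      have h2 : (q.takeUntil v hv).length ≤ q.length := q.length_takeUntil_le_length hv
      omega
    have hmem : x ∈ p.support := hG.mem_support_of_ne_mem_support_of_adj_of_isPath hp hq hx hv
    exact hG.eq_penultimate_of_adj_end hp hx hmem
  rw [key w hw hd, key w' hw' hd']

/-- Counting lemma for trees with few leaves. -/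
lemma tree_count {n : ℕ} (G : SimpleGraph (Fin n)) (hG : G.IsAcyclic) (S : Finset (Fin n))
    (A B : Finset (Fin n)) (hA : A ⊆ S) (ρ : Fin n)
    (hreach : ∀ v ∈ S, G.Reachable ρ v)
    (hAB : ∀ v ∈ A, ∀ w, G.Adj v w → w ∈ B) (L : ℕ)
    (hL : {v : Fin n | v ∈ S ∧ (G.neighborSet v).ncard = 1}.ncard ≤ L) :
    A.card ≤ B.card + L + 1 := by
  classical
  -- vertices with a child
  let A1 := A.filter (fun v => ∃ w, G.Adj v w ∧ G.dist ρ w = G.dist ρ v + 1)
  let A2 := A.filter (fun v => ¬ ∃ w, G.Adj v w ∧ G.dist ρ w = G.dist ρ v + 1)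
  have hsplit : A.card = A1.card + A2.card := (card_filter_add_card_filter_not _).symm
  have h1 : A1.card ≤ B.card := by
    have hch : ∀ v ∈ A1, ∃ w, G.Adj v w ∧ G.dist ρ w = G.dist ρ v + 1 := fun v hv =>
      (mem_filter.1 hv).2
    choose! ch hch using hch
    refine card_le_card_of_injOn ch ?_ ?_
    · intro v hv
      exact hAB v (mem_filter.1 hv).1 _ (hch v hv).1
    · intro v hv v' hv' heq
      have h2 := hch v hv
      have h3 := hch v' hv'
      rw [← heq] at h3
      have hr : G.Reachable ρ (ch v) := (hreach v (hA (mem_filter.1 hv).1)).trans h2.1.reachable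
      exact closer_unique hG hr h2.1.symm h3.1.symm h2.2 h3.2
  have h2 : A2.card ≤ L + 1 := by
    have hsub : (A2.erase ρ : Set (Fin n)) ⊆
        {v : Fin n | v ∈ S ∧ (G.neighborSet v).ncard = 1} := by
      intro v hv
      rw [mem_coe, mem_erase, mem_filter] at hv
      obtain ⟨hne, hvA, hno⟩ := hv
      have hvS := hA hvA
      have hr := hreach v hvS
      refine ⟨hvS, ?_⟩
      -- there is a parent
      obtain ⟨p, hp, hpl⟩ := hr.exists_path_of_dist
      have hnil : ¬ p.Nil := by
        intro hnil
        exact hne hnil.eq.symm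
      have hpar : G.Adj p.penultimate v := p.adj_penultimate hnil
      rw [Set.ncard_eq_one]
      refine ⟨p.penultimate, ?_⟩
      have hcl : ∀ w, G.Adj v w → G.dist ρ v = G.dist ρ w + 1 := by
        intro w hw
        rcases hG.dist_eq_dist_add_one_of_adj_of_reachable ρ hw hr with h | h
        · exact h
        · exact absurd ⟨w, hw, h⟩ hno
      ext w
      simp only [mem_neighborSet, Set.mem_singleton_iff]
      constructor
      · intro hw
        exact closer_unique hG hr hw hpar.symm (hcl w hw) (hcl _ hpar.symm)
      · rintro rfl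
        exact hpar.symm
    have h3 : (A2.erase ρ).card ≤ L := by
      rw [← Set.ncard_coe_finset]
      exact (Set.ncard_le_ncard hsub (Set.toFinite _)).trans hL
    have h4 : A2.card ≤ (A2.erase ρ).card + 1 := by
      have := pred_card_le_card_erase (s := A2) (a := ρ)
      omega
    omega
  omega

end Pool.Agent.Work.MP_f2c9f5_co
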