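import Mathlib
import Pool.Agent.Work.MP_f2c9f5_co.Step
import Pool.Agent.Work.MP_f2c9f5_co.Tree

set_option autoImplicit false

namespace Pool.Agent.Work.MP_f2c9f5_co

open Finset SimpleGraph

lemma reach_induct {V : Type} {G : SimpleGraph V} (Q : V → Prop)
    (hQ : ∀ x y, G.Adj x y → Q x → Q y) {x y : V} (h : G.Reachable x y) (hx : Q x) : Q y := by
  obtain ⟨p⟩ := h
  induction p with
  | nil => exact hx
  | cons hadj _ ih => exact ih (hQ _ _ hadj hx)

/-- the part function of the blow-up. -/
lemma exists_part (X : Pat) (N : ℕ) : ∃ P : Fin (X.wt univ * N) → X.P,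
    ∀ S : Finset X.P, (univ.filter (fun v => P v ∈ S)).card = X.wt S * N := by
  classical
  have hcard : Fintype.card (Σ p : X.P, Fin (X.w p * N)) = X.wt univ * N := by
    rw [Fintype.card_sigma]
    simp only [Fintype.card_fin, Pat.wt]
    rw [sum_mul]
  let e := Fintype.equivFinOfCardEq hcard
  refine ⟨fun v => (e.symm v).1, fun S => ?_⟩
  have h : (univ.filter (fun v => (e.symm v).1 ∈ S)) =
      (S.sigma (fun p => (univ : Finset (Fin (X.w p * N))))).map e.toEmbedding := by
    ext v
    simp only [mem_filter, mem_univ, true_and, mem_map_equiv, mem_sigma, and_true]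
  rw [h, card_map, card_sigma]
  simp only [card_univ, Fintype.card_fin, Pat.wt]
  rw [sum_mul]

/-- A pattern of cost more than `C * r` with `r` colours gives colourings of complete graphs
which cannot be partitioned into `C * r` monochromatic trees with at most `L` leaves. -/
theorem blow_up (X : Pat) (C L r K M : ℕ) (hM : 0 < M) (hr : Fintype.card X.Col = r)
    (hX : X.Good K 1 M) (hK : C * r < K) (N : ℕ) (hN : M * (C * r * (L + 1)) < N) :
    ∃ c : Sym2 (Fin (X.wt univ * N)) → Fin r,
      ¬ ∃ f : Fin (X.wt univ * N) → Fin (C * r),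
        ∃ T : Fin (C * r) → SimpleGraph (Fin (X.wt univ * N)),
        ∀ i : Fin (C * r),
          (∀ u v : Fin (X.wt univ * N), (T i).Adj u v → f u = i ∧ f v = i) ∧
          (T i).IsAcyclic ∧
          ((T i).induce {v | f v = i}).Preconnected ∧
          (∃ col : Fin r, ∀ u v, (T i).Adj u v → c s(u, v) = col) ∧
          {v | f v = i ∧ ((T i).neighborSet v).ncard = 1}.ncard ≤ L := by
  classical
  obtain ⟨P, hP⟩ := exists_part X N
  let ψ : X.Col ≃ Fin r := Fintype.equivFinOfCardEq hr
  let c : Sym2 (Fin (X.wt univ * N)) → Fin r :=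
    Sym2.lift ⟨fun u v => ψ (X.col (X.κ (P u) (P v))), fun u v => by simp only [X.symm (P u) (P v)]⟩
  have hc : ∀ u v, c s(u, v) = ψ (X.col (X.κ (P u) (P v))) := fun u v => rfl
  refine ⟨c, ?_⟩
  rintro ⟨f, T, hT⟩
  -- a vertex exists, so a default part and label
  have hWpos : 0 < X.wt univ := X.wpos
  have hNpos : 0 < N := by omega
  -- every tree has a label
  have hlab : ∀ i : Fin (C * r), ∃ l : X.Lab, ∀ u v, (T i).Adj u v → X.κ (P u) (P v) = l := by
    intro i
    obtain ⟨hin, hac, hpre, ⟨col, hcol⟩, -⟩ := hT i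
    by_cases hex : ∃ u v, (T i).Adj u v
    · obtain ⟨u0, v0, h0⟩ := hex
      refine ⟨X.κ (P u0) (P v0), ?_⟩
      have hsame : ∀ u v w, (T i).Adj u v → (T i).Adj v w → X.κ (P u) (P v) = X.κ (P v) (P w) := by
        intro u v w huv hvw
        apply X.conn
        have h1 := hcol u v huv
        have h2 := hcol v w hvw
        rw [hc] at h1 h2
        exact ψ.injective (h1.trans h2.symm)
      let Q : Fin (X.wt univ * N) → Prop := fun x => ∀ y, (T i).Adj x y →
        X.κ (P x) (P y) = X.κ (P u0) (P v0)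
      have hQ0 : Q u0 := by
        intro y hy
        have h1 := hsame v0 u0 y h0.symm hy
        rw [← h1, X.symm]
      have hQstep : ∀ x y, (T i).Adj x y → Q x → Q y := by
        intro x y hxy hx z hz
        have h1 := hsame x y z hxy hz
        rw [← h1]
        exact hx y hxy
      intro u v huv
      have hfu : f u = i := (hin u v huv).1
      have hfu0 : f u0 = i := (hin u0 v0 h0).1
      have hreach : (T i).Reachable u0 u := by
        have h1 := hpre ⟨u0, hfu0⟩ ⟨u, hfu⟩
        exact h1.map (Embedding.induce {v | f v = i}).toHom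
      exact reach_induct Q hQstep hreach hQ0 v huv
    · refine ⟨X.κ (P ⟨0, Nat.mul_pos hWpos hNpos⟩) (P ⟨0, Nat.mul_pos hWpos hNpos⟩), ?_⟩
      intro u v huv
      exact absurd ⟨u, v, huv⟩ hex
  choose lab hlab using hlab
  let F : Finset X.Lab := univ.image lab
  have hF : F.card < K := by
    calc F.card ≤ (univ : Finset (Fin (C * r))).card := card_image_le
      _ = C * r := by simp
      _ < K := hK
  obtain ⟨I, hI⟩ := hX F hF
  -- counting in each tree
  have hcount : ∀ i : Fin (C * r),
      (univ.filter (fun v => f v = i ∧ P v ∈ I)).card ≤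
        (univ.filter (fun v => f v = i ∧ P v ∈ X.nb F I)).card + (L + 1) := by
    intro i
    obtain ⟨hin, hac, hpre, -, hleaf⟩ := hT i
    by_cases hne : ∃ ρ, f ρ = i
    · obtain ⟨ρ, hρ⟩ := hne
      have h1 := tree_count (T i) hac (univ.filter (fun v => f v = i))
        (univ.filter (fun v => f v = i ∧ P v ∈ I))
        (univ.filter (fun v => f v = i ∧ P v ∈ X.nb F I))
        (by
          intro v hv
          rw [mem_filter] at hv ⊢
          exact ⟨hv.1, hv.2.1⟩) ρ
        (by
          intro v hv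
          rw [mem_filter] at hv
          have h1 := hpre ⟨ρ, hρ⟩ ⟨v, hv.2⟩
          exact h1.map (Embedding.induce {v | f v = i}).toHom)
        (by
          intro v hv w hvw
          rw [mem_filter] at hv ⊢
          refine ⟨mem_univ _, (hin v w hvw).2, ?_⟩
          unfold Pat.nb
          rw [mem_filter]
          refine ⟨mem_univ _, P v, hv.2.2, ?_⟩
          rw [hlab i v w hvw]
          exact mem_image_of_mem _ (mem_univ _)) L
        (by simpa using hleaf)
      omega
    · have : (univ.filter (fun v => f v = i ∧ P v ∈ I)) = ∅ := by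
        rw [filter_eq_empty_iff]
        intro v _ hv
        exact hne ⟨v, hv.1⟩
      rw [this]
      simp
  -- sum over the classes
  have hsum : ∀ S : Finset X.P, (univ.filter (fun v => P v ∈ S)).card =
      ∑ i : Fin (C * r), (univ.filter (fun v => f v = i ∧ P v ∈ S)).card := by
    intro S
    rw [card_eq_sum_card_fiberwise (f := f) (t := univ) (fun x _ => by simp)]
    refine sum_congr rfl fun i _ => ?_
    congr 1
    ext v
    simp only [mem_filter, mem_univ, true_and]
    tauto
  have h1 : X.wt I * N ≤ X.wt (X.nb F I) * N + C * r * (L + 1) := by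
    rw [← hP I, ← hP (X.nb F I), hsum I, hsum (X.nb F I)]
    calc ∑ i : Fin (C * r), (univ.filter (fun v => f v = i ∧ P v ∈ I)).card
        ≤ ∑ i : Fin (C * r), ((univ.filter (fun v => f v = i ∧ P v ∈ X.nb F I)).card + (L + 1)) :=
          sum_le_sum fun i _ => hcount i
      _ = _ := by
          rw [sum_add_distrib, sum_const, card_univ, Fintype.card_fin, smul_eq_mul]
  have h2 : (X.wt univ + M * 1 * X.wt (X.nb F I)) * N ≤ (M * X.wt I) * N :=
    Nat.mul_le_mul_right _ hI
  have h3 : M * (X.wt I * N) ≤ M * (X.wt (X.nb F I) * N + C * r * (L + 1)) :=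
    Nat.mul_le_mul_left _ h1
  have h4 : N ≤ X.wt univ * N := Nat.le_mul_of_pos_left _ hWpos
  have h5 : (X.wt univ + M * 1 * X.wt (X.nb F I)) * N =
      X.wt univ * N + M * (X.wt (X.nb F I) * N) := by ring
  have h6 : (M * X.wt I) * N = M * (X.wt I * N) := by ring
  rw [h5, h6] at h2
  rw [mul_add] at h3
  omega

lemma two_pow_ge (C : ℕ) : C * (4 + (C + 5)) + 10 ≤ 2 ^ (C + 5) := by
  induction C with
  | zero => norm_num
  | succ n ih =>
    have h3 : 2 ^ (n + 1 + 5) = 2 * 2 ^ (n + 5) := by ring
    rw [h3]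
    nlinarith

/-- For all `C, L` there are `r ≥ 2` and, for all large `N`, an `r`-colouring of a complete graph on
a multiple of `N` vertices with no partition into `C * r` monochromatic trees with at most `L`
leaves. -/
theorem main (C L : ℕ) : ∃ r W N0 : ℕ, 2 ≤ r ∧ 0 < W ∧ ∀ N, N0 ≤ N →
    ∃ c : Sym2 (Fin (W * N)) → Fin r,
      ¬ ∃ f : Fin (W * N) → Fin (C * r),
        ∃ T : Fin (C * r) → SimpleGraph (Fin (W * N)),
        ∀ i : Fin (C * r),
          (∀ u v : Fin (W * N), (T i).Adj u v → f u = i ∧ f v = i) ∧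
          (T i).IsAcyclic ∧
          ((T i).induce {v | f v = i}).Preconnected ∧
          (∃ col : Fin r, ∀ u v, (T i).Adj u v → c s(u, v) = col) ∧
          {v | f v = i ∧ ((T i).neighborSet v).ncard = 1}.ncard ≤ L := by
  obtain ⟨M, t0, hM, h⟩ := iterate (2 ^ (C + 5)) (C + 5) 1
  obtain ⟨X, hXc, hXg⟩ := h (t0 + 1) (Nat.le_succ _) (Nat.succ_pos _) le_rfl
  refine ⟨(4 + (C + 5)) * (t0 + 1), X.wt univ,
    M * (C * ((4 + (C + 5)) * (t0 + 1)) * (L + 1)) + 1, ?_, X.wpos, ?_⟩
  · nlinarith
  · intro N hN
    refine blow_up X C L _ _ M hM hXc hXg ?_ N (by omega)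
    have h1 := two_pow_ge C
    calc C * ((4 + (C + 5)) * (t0 + 1)) = (C * (4 + (C + 5))) * (t0 + 1) := by ring
      _ < 2 ^ (C + 5) * (t0 + 1) := by
          apply Nat.mul_lt_mul_of_pos_right _ (Nat.succ_pos _)
          omega

end Pool.Agent.Work.MP_f2c9f5_co
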